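import Pool.Agent.H426.Noc.NSmall

/-!
The dimension of the set of the tuples of points whose products of values lie in a small variety.
-/

set_option autoImplicit false

namespace Pool.Agent.H426.Cyc

open MvPolynomial Finset Module
open Pool.Agent.H426.Ru (HG)
open Pool.Agent.H426.Noc
open Api2

/-- the transcendence degree of a ring which is algebraic over the values of `y` -/
lemma trdeg_le_of_alg {K : Type} [Field K] {q : ℕ} {P : Ideal (MvPolynomial (Fin q) K)}
    {κ : Cardinal} (hP : Algebra.trdeg K (MvPolynomial (Fin q) K ⧸ P) ≤ κ)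
    {E R : Type} [Field E] [Algebra K E] [CommRing R] [Algebra K R] (φ : R →ₐ[K] E)
    (hφ : Function.Injective φ) (y : Fin q → E) (hyP : ∀ p ∈ P, aeval y p = 0)
    (halg : ∀ r, IsAlgebraic (Algebra.adjoin K (Set.range y)) (φ r)) :
    Algebra.trdeg K R ≤ κ := by
  set B := Algebra.adjoin K (Set.range y) with hB
  let C := Subalgebra.algebraicClosure B E
  -- `C` is algebraic over `B`
  have h1 : Algebra.trdeg K B = Algebra.trdeg K C := by
    have h2 := _root_.trdeg_add_eq K B (A := C)
    rw [trdeg_eq_zero (R := B) (A := C), add_zero] at h2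
    exact h2
  let f : R →ₐ[K] C.restrictScalars K := φ.codRestrict (C.restrictScalars K) halg
  have hf : Function.Injective f := by
    intro a b hab
    exact hφ (congrArg Subtype.val hab)
  have h4 : Algebra.trdeg K R ≤ Algebra.trdeg K (C.restrictScalars K) :=
    _root_.trdeg_le_of_injective f hf
  -- `MvPolynomial (Fin q) K / P` maps onto `B`
  have hyB : ∀ p : MvPolynomial (Fin q) K, aeval y p ∈ B := by
    intro p
    rw [hB, Algebra.adjoin_range_eq_range_aeval]
    exact ⟨p, rfl⟩
  let g : MvPolynomial (Fin q) K →ₐ[K] B := (aeval (R := K) y).codRestrict B hyB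
  let g' : (MvPolynomial (Fin q) K ⧸ P) →ₐ[K] B :=
    Ideal.Quotient.liftₐ P g fun p hp => Subtype.ext (hyP p hp)
  have hg' : Function.Surjective g' := by
    rintro ⟨b, hb⟩
    have hb' := hb
    rw [hB, Algebra.adjoin_range_eq_range_aeval] at hb'
    obtain ⟨p, hp⟩ := hb'
    exact ⟨Ideal.Quotient.mk P p, Subtype.ext hp⟩
  have h5 : Algebra.trdeg K B ≤ Algebra.trdeg K (MvPolynomial (Fin q) K ⧸ P) :=
    _root_.trdeg_le_of_surjective g' hg'
  have h6 : Algebra.trdeg K (C.restrictScalars K) = Algebra.trdeg K C := rfl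
  rw [h6, ← h1] at h4
  exact h4.trans (h5.trans hP)

theorem dim_le {K : Type} [Field K] {n m q N δ e ν : ℕ} (hδ : 1 ≤ δ) (he : 1 ≤ e)
    (hq : N * δ < q)
    (G : Fin m → MvPolynomial (Fin n) K) (g : Fin m → ℕ) (hG : ∀ k, (G k).IsHomogeneous (g k))
    (F : Fin q → MvPolynomial (Fin n) K) (hF : ∀ i, (F i).IsHomogeneous e)
    (hgp : ∀ J : Fin (N + 1) ↪ Fin q, ∀ (E : Type) [Field E] [Algebra K E] (x : Fin n → E),
      (∀ k, aeval x (G k) = 0) → (∀ k, aeval x (F (J k)) = 0) → x = 0)
    {P : Ideal (MvPolynomial (Fin q) K)} (hPh : HG P)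
    (hP : Algebra.trdeg K (MvPolynomial (Fin q) K ⧸ P) ≤ ((ν + 1 : ℕ) : Cardinal))
    {E : Type} [Field E] [Algebra K E] (x : Fin δ → Fin n → E) (hx1 : ∀ s, ∃ i, x s i = 1)
    (hxG : ∀ s k, aeval (x s) (G k) = 0)
    (hxP : ∀ p ∈ P, aeval (fun j => ∏ s, aeval (x s) (F j)) p = 0) :
    Algebra.trdeg K (Algebra.adjoin K (Set.range fun si : Fin δ × Fin n => x si.1 si.2)) ≤
      (ν : Cardinal) := by
  classical
  choose i0 hi0 using hx1
  have hx0 : ∀ s, x s ≠ 0 := by
    intro s h
    have := hi0 s
    rw [h] at this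
    exact zero_ne_one this
  -- the field of the generic line
  let E' : Type := FractionRing (Polynomial E)
  have hinjE : Function.Injective (algebraMap E E') := (algebraMap E E').injective
  have hinjP := IsFractionRing.injective (Polynomial E) E'
  let T : E' := algebraMap (Polynomial E) E' Polynomial.X
  have hT : T ≠ 0 := by
    intro h
    exact Polynomial.X_ne_zero (hinjP (h.trans (map_zero _).symm))
  let c : Fin δ → Fin δ → E' := fun s1 s => if s = s1 then T else 1
  have hc : ∀ s1 s, c s1 s ≠ 0 := by
    intro s1 s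
    by_cases hs : s = s1
    · simp only [c, hs, if_true]
      exact hT
    · simp only [c, hs, if_false]
      exact one_ne_zero
  let x' : Fin δ → Fin δ → Fin n → E' := fun s1 s i => c s1 s * algebraMap E E' (x s i)
  have hev : ∀ (s1 s : Fin δ) (t : ℕ) (p : MvPolynomial (Fin n) K), p.IsHomogeneous t →
      aeval (x' s1 s) p = c s1 s ^ t * algebraMap E E' (aeval (x s) p) := by
    intro s1 s t p hp
    have h1 := Pool.Agent.H264.TwoT4.scale (c s1 s) (fun i => algebraMap E E' (x s i)) p hp
    rw [Noc.map_aeval] at h1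
    exact h1
  let y : Fin q → E' := fun j => T ^ e * algebraMap E E' (∏ s, aeval (x s) (F j))
  have hprod : ∀ s1, ∏ s, c s1 s = T := by
    intro s1
    rw [Finset.prod_eq_single s1]
    · simp only [c, if_true]
    · intro s _ hs
      simp only [c, hs, if_false]
    · intro h
      exact absurd (Finset.mem_univ s1) h
  have hy : ∀ s1, (fun j => ∏ s, aeval (x' s1 s) (F j)) = y := by
    intro s1
    funext j
    have h1 : y j = (∏ s, c s1 s) ^ e * algebraMap E E' (∏ s, aeval (x s) (F j)) := by
      rw [hprod]
    rw [h1, map_prod, ← Finset.prod_pow, ← Finset.prod_mul_distrib]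
    exact Finset.prod_congr rfl fun s _ => hev s1 s e (F j) (hF j)
  set A := Algebra.adjoin K (Set.range y) with hA
  -- algebraicity of the scaled coordinates
  have halg : ∀ s i, IsAlgebraic A (T * algebraMap E E' (x s i)) := by
    intro s1 i
    have h1 := alg_val hδ he hq G g hG F hF hgp (x' s1) s1 (by
      intro s h
      have h1 := congrFun h (i0 s)
      exact mul_ne_zero (hc s1 s) ((map_ne_zero_iff _ hinjE).2 (by
        rw [hi0 s]; exact one_ne_zero)) h1) (by
      intro s hs
      refine ⟨i0 s, ?_⟩
      simp only [x', c, hs, if_false]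
      rw [hi0 s, map_one, one_mul]) (by
      intro s k
      rw [hev s1 s (g k) (G k) (hG k), hxG, map_zero, mul_zero]) i
    rw [hy s1] at h1
    simp only [x', c, if_true] at h1
    exact h1
  have hTalg : IsAlgebraic A T := by
    have h1 := halg ⟨0, hδ⟩ (i0 ⟨0, hδ⟩)
    rw [hi0, map_one, mul_one] at h1
    exact h1
  have hxalg : ∀ s i, IsAlgebraic A (algebraMap E E' (x s i)) := by
    intro s i
    have h1 := (halg s i).mul hTalg.inv
    rw [mul_comm T, mul_assoc, mul_inv_cancel₀ hT, mul_one] at h1
    exact h1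
  -- the polynomial ring over the coordinates
  set A0 := Algebra.adjoin K (Set.range fun si : Fin δ × Fin n => x si.1 si.2) with hA0
  let φ : Polynomial A0 →ₐ[K] E' :=
    (IsScalarTower.toAlgHom K (Polynomial E) E').comp (Polynomial.mapAlgHom A0.val)
  have hφinj : Function.Injective φ := by
    have h2 : Function.Injective (Polynomial.mapAlgHom A0.val : Polynomial A0 →ₐ[K] Polynomial E) :=
      Polynomial.map_injective _ Subtype.val_injective
    exact hinjP.comp h2
  have hφC : ∀ p : Polynomial A0, IsAlgebraic A (φ p) := by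
    intro p
    induction p using Polynomial.induction_on' with
    | add p r hp hr =>
      rw [map_add]
      exact hp.add hr
    | monomial k a =>
      have h3 : φ (Polynomial.monomial k a) = algebraMap E E' (a : E) * T ^ k := by
        have h4 : φ (Polynomial.monomial k a) = algebraMap (Polynomial E) E'
            (Polynomial.map (A0.val : A0 →+* E) (Polynomial.monomial k a)) := rfl
        rw [h4, Polynomial.map_monomial, ← Polynomial.C_mul_X_pow_eq_monomial, map_mul, map_pow]
        rfl
      rw [h3]
      refine IsAlgebraic.mul ?_ (hTalg.pow k)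
      refine Algebra.adjoin_induction (p := fun z _ => IsAlgebraic A (algebraMap E E' z))
        ?_ ?_ ?_ ?_ a.2
      · rintro _ ⟨si, rfl⟩
        exact hxalg si.1 si.2
      · intro r
        have h5 : algebraMap E E' (algebraMap K E r) = algebraMap A E' (algebraMap K A r) := by
          rw [← IsScalarTower.algebraMap_apply, ← IsScalarTower.algebraMap_apply]
        rw [h5]
        exact isAlgebraic_algebraMap _
      · intro z w _ _ hz hw
        rw [map_add]
        exact hz.add hw
      · intro z w _ _ hz hw
        rw [map_mul]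
        exact hz.mul hw
  have h5 : Algebra.trdeg K (Polynomial A0) = Algebra.trdeg K A0 + 1 := by
    have h6 := _root_.trdeg_add_eq K A0 (A := Polynomial A0)
    rw [Polynomial.trdeg_of_isDomain] at h6
    exact h6.symm
  have hyP : ∀ p ∈ P, aeval y p = 0 := by
    refine scale_mem hPh (fun j => algebraMap E E' (∏ s, aeval (x s) (F j))) (T ^ e) ?_
    intro p hp
    rw [Noc.map_aeval, hxP p hp, map_zero]
  have h9 := trdeg_le_of_alg hP φ hφinj y hyP hφC
  rw [h5] at h9
  have h10 : Algebra.trdeg K A0 + 1 ≤ (ν : Cardinal) + 1 := by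
    push_cast at h9
    exact h9
  exact (Cardinal.add_one_le_add_one_iff).1 h10

end Pool.Agent.H426.Cyc
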