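import Pool.Agent.H426.Noc.NRed
import Pool.Agent.H426.Cyc.Dim

/-!
The inequality outside a set of cycles of small dimension.
-/

set_option autoImplicit false

namespace Pool.Agent.H426.Cyc

open MvPolynomial Finset Module NumberField IsDedekindDomain Height
open Pool.Agent.W180.OP Pool.Agent.W180.TP Pool.Agent.NH28
open Pool.Agent.TH875 (VM VM_finite not_all form_ub)
open Pool.Agent.H426.Ru (HG noeth main_f cone)
open Pool.Agent.H426.Two Pool.Agent.H426.Noc

/-- homogeneous in each of the `δ` groups of variables -/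
def Multi {K : Type} [Field K] {δ n : ℕ} (p : MvPolynomial (Fin δ × Fin n) K) : Prop :=
  ∃ d : Fin δ → ℕ, IsWeightedHomogeneous (fun si : Fin δ × Fin n =>
    (Pi.single si.1 1 : Fin δ → ℕ)) p d

section

variable {K : Type} [Field K] {δ n q : ℕ}

/-- the product of the values at the members -/
noncomputable def Pr (δ : ℕ) (F : Fin q → MvPolynomial (Fin n) K) (j : Fin q) :
    MvPolynomial (Fin δ × Fin n) K := ∏ s, rename (fun i => (s, i)) (F j)

lemma rename_hom {F : MvPolynomial (Fin n) K} {e : ℕ} (hF : F.IsHomogeneous e) (s : Fin δ) :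
    IsWeightedHomogeneous (fun si : Fin δ × Fin n => (Pi.single si.1 1 : Fin δ → ℕ))
      (rename (fun i => (s, i)) F) (Pi.single s e) := by
  classical
  intro β hβ
  obtain ⟨u, hu, huF⟩ := coeff_rename_ne_zero _ _ _ hβ
  have h1 : u.degree = e := by
    have := hF huF
    exact (DFunLike.congr_fun (Finsupp.degree_eq_weight_one (σ := Fin n) (R := ℕ)) u).trans this
  rw [← hu, Finsupp.weight_apply, Finsupp.sum_mapDomain_index]
  · have h2 : (u.sum fun i c => c • (Pi.single s 1 : Fin δ → ℕ)) =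
        u.degree • (Pi.single s 1 : Fin δ → ℕ) := by
      rw [Finsupp.sum, ← Finset.sum_smul]
      rfl
    rw [h2, h1, ← Pi.single_smul, smul_eq_mul, mul_one]
  · intro b
    rw [zero_smul]
  · intro b m1 m2
    rw [add_smul]

lemma Pr_hom {F : Fin q → MvPolynomial (Fin n) K} {e : ℕ} (hF : ∀ i, (F i).IsHomogeneous e)
    (j : Fin q) : IsWeightedHomogeneous (fun si : Fin δ × Fin n =>
      (Pi.single si.1 1 : Fin δ → ℕ)) (Pr δ F j) (fun _ => e) := by
  classical
  have h1 := IsWeightedHomogeneous.prod (w := fun si : Fin δ × Fin n =>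
    (Pi.single si.1 1 : Fin δ → ℕ)) (Finset.univ : Finset (Fin δ))
    (fun s => rename (fun i => (s, i)) (F j)) (fun s => Pi.single s e)
    (fun s _ => rename_hom (hF j) s)
  have h2 : ∑ s : Fin δ, (Pi.single s e : Fin δ → ℕ) = fun _ => e := by
    funext s
    rw [Finset.sum_apply, Finset.sum_eq_single s]
    · rw [Pi.single_eq_same]
    · intro b _ hb
      rw [Pi.single_eq_of_ne (Ne.symm hb)]
    · intro h
      exact absurd (Finset.mem_univ s) h
  rw [h2] at h1
  exact h1

lemma aeval_Pr_hom {F : Fin q → MvPolynomial (Fin n) K} {e t : ℕ}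
    (hF : ∀ i, (F i).IsHomogeneous e) {p : MvPolynomial (Fin q) K} (hp : p.IsHomogeneous t) :
    IsWeightedHomogeneous (fun si : Fin δ × Fin n =>
      (Pi.single si.1 1 : Fin δ → ℕ)) (aeval (Pr δ F) p) (t • fun _ => e) := by
  classical
  rw [aeval_def, eval₂_eq]
  refine IsWeightedHomogeneous.sum _ _ _ fun β hβ => ?_
  refine IsWeightedHomogeneous.C_mul ?_ _
  have hdeg : β.degree = t := by
    have := hp (mem_support_iff.1 hβ)
    exact (DFunLike.congr_fun (Finsupp.degree_eq_weight_one (σ := Fin q) (R := ℕ)) β).trans this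
  have h1 := IsWeightedHomogeneous.prod (w := fun si : Fin δ × Fin n =>
    (Pi.single si.1 1 : Fin δ → ℕ)) β.support (fun j => Pr δ F j ^ β j)
    (fun j => β j • (fun _ => e : Fin δ → ℕ)) (fun j _ => (Pr_hom hF j).pow (β j))
  rw [← Finset.sum_smul] at h1
  have h2 : ∑ j ∈ β.support, β j = t := by rw [← hdeg]; rfl
  rw [h2] at h1
  exact h1

lemma eval_Pr {E : Type} [Field E] [Algebra K E] (F : Fin q → MvPolynomial (Fin n) K)
    (x : Fin δ → Fin n → E) (p : MvPolynomial (Fin q) K) :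
    aeval (fun si : Fin δ × Fin n => x si.1 si.2) (aeval (Pr δ F) p) =
      aeval (fun j => ∏ s, aeval (x s) (F j)) p := by
  have h1 : (aeval (fun si : Fin δ × Fin n => x si.1 si.2)).comp (aeval (Pr δ F)) =
      aeval (R := K) (fun j => ∏ s, aeval (x s) (F j)) := by
    apply MvPolynomial.algHom_ext
    intro j
    rw [AlgHom.comp_apply, aeval_X, aeval_X, Pr, map_prod]
    refine Finset.prod_congr rfl fun s _ => ?_
    rw [aeval_rename]
    rfl
  exact DFunLike.congr_fun h1 p

end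

/-- the conjugates of a point -/
lemma conj_all {K L : Type} [Field K] [NumberField K] [Field L] [NumberField L] [Algebra K L]
    {n q δ : ℕ} (F : Fin q → MvPolynomial (Fin n) K) (x : Fin n → L)
    (σ : Fin δ ≃ (L →ₐ[K] AlgebraicClosure K)) (p : MvPolynomial (Fin q) K) :
      aeval (fun j => ∏ s, aeval (fun i => σ s (x i)) (F j)) p =
        algebraMap K (AlgebraicClosure K)
          (aeval (fun j => Algebra.norm K (aeval x (F j))) p) := by
  classical
  have hfin : FiniteDimensional K L := Module.Finite.of_restrictScalars_finite ℚ K L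
  have hcomp : ∀ (s : Fin δ) (f : MvPolynomial (Fin n) K),
      aeval (fun i => σ s (x i)) f = σ s (aeval x f) := by
    intro s f
    have := comp_aeval_apply (σ s) (f := x) f
    exact this.symm
  have h2 : ∀ j, ∏ s, aeval (fun i => σ s (x i)) (F j) =
      algebraMap K (AlgebraicClosure K) (Algebra.norm K (aeval x (F j))) := by
    intro j
    rw [Algebra.norm_eq_prod_embeddings K (AlgebraicClosure K)]
    rw [← Equiv.prod_comp σ]
    exact Finset.prod_congr rfl fun s _ => hcomp s _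
  have h3 : (fun j => ∏ s, aeval (fun i => σ s (x i)) (F j)) =
      fun j => algebraMap K (AlgebraicClosure K) (Algebra.norm K (aeval x (F j))) := funext h2
  rw [h3]
  have := comp_aeval_apply (Algebra.ofId K (AlgebraicClosure K))
    (f := fun j => Algebra.norm K (aeval x (F j))) p
  exact this.symm

/-- the closed subset of `X ^ δ` has dimension less than `μ` -/
def Small {K : Type} [Field K] {n m δ : ℕ} (G : Fin m → MvPolynomial (Fin n) K)
    (B : Set (MvPolynomial (Fin δ × Fin n) K)) (μ : ℕ) : Prop :=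
  ∀ (E : Type) [Field E] [Algebra K E] (x : Fin δ → Fin n → E),
    (∀ s k, aeval (x s) (G k) = 0) → (∀ s, ∃ i, x s i = 1) →
    (∀ p ∈ B, aeval (fun si : Fin δ × Fin n => x si.1 si.2) p = 0) →
    Algebra.trdeg K (Algebra.adjoin K (Set.range fun si : Fin δ × Fin n => x si.1 si.2)) <
      (μ : Cardinal)

section

variable {K : Type} [Field K] [NumberField K]

/-- **The inequality outside the cycles of a set of dimension less than `μ`.** -/
theorem cyc_delta {n m q N e δ μ : ℕ} (hδ : 1 ≤ δ) (he : 1 ≤ e)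
    (G : Fin m → MvPolynomial (Fin n) K) (g : Fin m → ℕ) (hG : ∀ k, (G k).IsHomogeneous (g k))
    (hμN : μ ≤ N * δ)
    (F : Fin q → MvPolynomial (Fin n) K) (hF : ∀ i, (F i).IsHomogeneous e)
    (hgp : ∀ J : Fin (N + 1) ↪ Fin q, ∀ (E : Type) [Field E] [Algebra K E] (x : Fin n → E),
      (∀ k, aeval x (G k) = 0) → (∀ k, aeval x (F (J k)) = 0) → x = 0) {ε : ℝ} (hε : 0 < ε) :
    ∃ B : Set (MvPolynomial (Fin δ × Fin n) K), (∀ p ∈ B, Multi p) ∧ Small G B μ ∧
      ∀ S : Finset (Pl K), ∃ C : ℝ, 0 ≤ C ∧ ∀ (L : Type) [Field L] [NumberField L] [Algebra K L],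
      finrank K L = δ →
      ∀ x : Fin n → L, x ≠ 0 → (∀ k, aeval x (G k) = 0) → (∀ j, aeval x (F j) ≠ 0) →
      (∃ σ : Fin δ ≃ (L →ₐ[K] AlgebraicClosure K), ∃ p ∈ B,
        aeval (fun si : Fin δ × Fin n => σ si.1 (x si.2)) p ≠ 0) →
      ∑ v ∈ S, ∑ w ∈ ab L v, wt w * ∑ j, lam (av w) e (bc L (F j)) x ≤
        (2 * (N * δ) - μ + 1 + ε) * (e * logHeight x) + C := by
  classical
  have hμr : (μ : ℝ) ≤ N * δ := by exact_mod_cast hμN
  have hδr : (1 : ℝ) ≤ δ := by exact_mod_cast hδ
  have hN0 : (0 : ℝ) ≤ N := Nat.cast_nonneg _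
  have hNδ0 : (0 : ℝ) ≤ N * δ := by positivity
  by_cases hq : q ≤ N * δ
  · refine ⟨{1}, ?_, ?_, fun S => ?_⟩
    · rintro _ rfl
      exact ⟨0, isWeightedHomogeneous_one _ _⟩
    · intro E _ _ x _ _ h
      have := h 1 rfl
      rw [map_one] at this
      exact absurd this one_ne_zero
    obtain ⟨C, hC0, hC⟩ := few (δ := δ) F hF S
    refine ⟨C, hC0, fun L _ _ _ hL x hx hGx hFx _ => (hC L hL x hx hFx).trans ?_⟩
    have hh := logHeight_nonneg x
    have h1 : (q : ℝ) ≤ N * δ := by exact_mod_cast hq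
    have h3 : 0 ≤ e * logHeight x := by positivity
    have h4 : (q : ℝ) * (e * logHeight x) ≤ (2 * (N * δ) - μ + 1 + ε) * (e * logHeight x) :=
      mul_le_mul_of_nonneg_right (by linarith) h3
    linarith
  push Not at hq
  have h5 : ∀ (K L : Type) [Field K] [NumberField K] [Field L] [NumberField L] [Algebra K L]
      (v : Pl K) (z : L), z ≠ 0 →
      ∑ w ∈ ab L v, wt w * Real.log (av w z) = wt v * Real.log (av v (Algebra.norm K z)) :=
    fun K L _ _ _ _ _ v z hz => Pool.Agent.H738.Two5.norm_places v z hz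
  obtain ⟨I0, hI0, hI0m, hI0s⟩ := Pool.Agent.H264.TwoT4.prime_cond (N := N) hδ he G g hG F hF hgp
  obtain ⟨k, B, hB, hmain⟩ := noeth_sharp hI0 (N := N * δ) hI0s μ hε (by omega)
  refine ⟨{p | ∃ (P : Fin k → MvPolynomial (Fin q) K) (t : Fin k → ℕ),
    (∀ i, (P i).IsHomogeneous (t i) ∧ P i ∈ B i) ∧ p = ∏ i, aeval (Pr δ F) (P i)}, ?_, ?_,
    fun S => ?_⟩
  · rintro _ ⟨P, t, hP, rfl⟩
    exact ⟨_, IsWeightedHomogeneous.prod _ _ (fun i => t i • fun _ => e)
      fun i _ => aeval_Pr_hom hF (hP i).1⟩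
  · intro E _ _ x hxG hx1 hxB
    have h1 : ∃ i, ∀ p ∈ B i, aeval (fun j => ∏ s, aeval (x s) (F j)) p = 0 := by
      by_contra hcon
      push Not at hcon
      have h2 : ∀ i, ∃ (p : MvPolynomial (Fin q) K) (t : ℕ), p.IsHomogeneous t ∧ p ∈ B i ∧
          aeval (fun j => ∏ s, aeval (x s) (F j)) p ≠ 0 := by
        intro i
        obtain ⟨m', G', g', hG', hBG⟩ := (hB i).2.1
        by_contra h3
        push Not at h3
        obtain ⟨p, hp, hp0⟩ := hcon i
        apply hp0
        rw [hBG] at hp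
        refine Submodule.span_induction (p := fun p _ =>
          aeval (fun j => ∏ s, aeval (x s) (F j)) p = 0) ?_ ?_ ?_ ?_ hp
        · rintro _ ⟨l, rfl⟩
          exact h3 (G' l) (g' l) (hG' l) (by rw [hBG]; exact Ideal.subset_span ⟨l, rfl⟩)
        · exact map_zero _
        · intro a b _ _ ha hb
          rw [map_add, ha, hb, add_zero]
        · intro a b _ hb
          rw [smul_eq_mul, map_mul, hb, mul_zero]
      choose P t hPt hPB hP0 using h2
      have h3 := hxB _ ⟨P, t, fun i => ⟨hPt i, hPB i⟩, rfl⟩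
      rw [map_prod, Finset.prod_eq_zero_iff] at h3
      obtain ⟨i, -, hi⟩ := h3
      rw [eval_Pr] at hi
      exact hP0 i hi
    obtain ⟨i, hi⟩ := h1
    obtain ⟨hBp, hBh, -, -, ν, c, hD, hν⟩ := hB i
    have h2 := dim_le hδ he hq G g hG F hF hgp hBh (trdeg_le_of_HD hBp hD) x hx1 hxG hi
    exact h2.trans_lt (by exact_mod_cast hν)
  obtain ⟨C, hC0, hC⟩ := hmain S
  obtain ⟨C', hC'0, hC'⟩ := Pool.Agent.H249.Two7a.height_norm_le h5 F hF δ
  choose Cv hCv0 hCv using fun v : Pl K =>
    Pool.Agent.H996.Two.nrm_norm_ge (δ := δ) h5 hq G g hG F hF hgp v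
  have hCvs : 0 ≤ ∑ v ∈ S, Cv v := Finset.sum_nonneg fun v _ => hCv0 v
  have hcoef : 0 ≤ 2 * ((N : ℝ) * δ) - μ + 1 + ε := by linarith
  refine ⟨C + (2 * (N * δ) - μ + 1 + ε) * C' + q * ∑ v ∈ S, Cv v, by positivity,
    fun L _ _ _ hL x hx hGx hFx hσ => ?_⟩
  obtain ⟨σ, p0, hp0, hσp⟩ := hσ
  have hfin : FiniteDimensional K L := Module.Finite.of_restrictScalars_finite ℚ K L
  set y : Fin q → K := fun j => Algebra.norm K (aeval x (F j)) with hy
  have hy0 : ∀ j, y j ≠ 0 := fun j => by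
    rw [hy]
    exact (Algebra.norm_ne_zero_iff (R := K)).2 (hFx j)
  have h1 : ∑ v ∈ S, ∑ j, lc v y j ≤
      (2 * ((N * δ : ℕ) : ℝ) - μ + 1 + ε) * logHeight y + C := by
    rcases hC y hy0 (fun p hp => norm_mem hL G F p (fun E _ _ x hx => hI0m E x hx p hp) x hGx)
      with ⟨i, hi⟩ | h1
    · exfalso
      obtain ⟨P, t, hP, rfl⟩ := hp0
      apply hσp
      rw [map_prod]
      refine Finset.prod_eq_zero (Finset.mem_univ i) ?_
      rw [eval_Pr F (fun s j => σ s (x j)), conj_all F x σ (P i)]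
      have := hi (P i) (hP i).2
      rw [this, map_zero]
    · exact h1
  have h2 := hC' L hL.le x hx hFx
  have h3 : ∀ v ∈ S, ∑ w ∈ ab L v, wt w * ∑ j, lam (av w) e (bc L (F j)) x ≤
      ∑ j, lc v y j + q * Cv v := by
    intro v _
    have h4 := hCv v L hL.le x hx hGx hFx
    have h6 : ∑ w ∈ ab L v, wt w * ∑ j, lam (av w) e (bc L (F j)) x =
        ∑ j, (e * ∑ w ∈ ab L v, wt w * Real.log (nrm (av w) x) -
          wt v * Real.log (av v (y j))) := by
      have h7 : ∀ j, wt v * Real.log (av v (y j)) =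
          ∑ w ∈ ab L v, wt w * Real.log (av w (aeval x (F j))) := fun j =>
        (h5 K L v _ (hFx j)).symm
      simp_rw [Finset.mul_sum, h7]
      rw [Finset.sum_comm]
      refine Finset.sum_congr rfl fun j _ => ?_
      rw [← Finset.sum_sub_distrib]
      refine Finset.sum_congr rfl fun w _ => ?_
      have h8 : eval x (bc L (F j)) = aeval x (F j) := eval_bc _ _
      rw [lam_eq (av w) e _ hx (by rw [h8]; exact hFx j), h8]
      ring
    rw [h6]
    have h9 : (q : ℝ) * Cv v = ∑ _j : Fin q, Cv v := by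
      rw [Finset.sum_const, Finset.card_univ, Fintype.card_fin, nsmul_eq_mul]
    rw [h9, ← Finset.sum_add_distrib]
    refine Finset.sum_le_sum fun j _ => ?_
    unfold lc
    rw [mul_sub]
    linarith
  refine (Finset.sum_le_sum h3).trans ?_
  rw [Finset.sum_add_distrib, ← Finset.mul_sum]
  push_cast at h1
  have h10 : (2 * ((N : ℝ) * δ) - μ + 1 + ε) * logHeight y ≤
      (2 * ((N : ℝ) * δ) - μ + 1 + ε) * (e * logHeight x + C') :=
    mul_le_mul_of_nonneg_left h2 hcoef
  linarith

end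

end Pool.Agent.H426.Cyc
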